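import Pool.Agent.Helper18_SIU.WON
import Pool.Agent.Helper50_SIU.Lnk

/-!
# SIU, module LBZ: Leibniz rules
-/

set_option autoImplicit false

open MeasureTheory Filter Topology

namespace Pool.Agent.SIU.H19

open Pool.Agent.SIU ContinuousAlternatingMap

variable {N k : ℕ}

/-- the real coordinates of `ℂ^N` -/
noncomputable def bas (N : ℕ) : Module.Basis (Fin (Module.finrank ℝ (Fin N → ℂ))) ℝ (Fin N → ℂ) :=
  Module.finBasis ℝ (Fin N → ℂ)

/-- the coordinate functionals -/
noncomputable def dx (N : ℕ) (i : Fin (Module.finrank ℝ (Fin N → ℂ))) : (Fin N → ℂ) →L[ℝ] ℝ :=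
  LinearMap.toContinuousLinearMap ((bas N).coord i)

theorem dx_sum (v : Fin N → ℂ) : ∑ i, dx N i v • bas N i = v := by
  exact (bas N).sum_repr v

theorem clm_eq (K : (Fin N → ℂ) →L[ℝ] Alt N k) :
    K = ∑ i, (dx N i).smulRight (K (bas N i)) := by
  ext1 v
  rw [ContinuousLinearMap.sum_apply]
  conv_lhs => rw [← dx_sum v]
  rw [_root_.map_sum]
  refine Finset.sum_congr rfl fun i _ => ?_
  rw [map_smul, ContinuousLinearMap.smulRight_apply]

theorem aU_eq (K : (Fin N → ℂ) →L[ℝ] Alt N k) :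
    alternatizeUncurryFin K = ∑ i, w1 (dx N i) (K (bas N i)) := by
  conv_lhs => rw [clm_eq K]
  rw [← alternatizeUncurryFinCLM_apply, _root_.map_sum]
  rfl

/-- covectors as 1-forms -/
noncomputable def hatL (N : ℕ) : ((Fin N → ℂ) →L[ℝ] ℝ) ≃ₗᵢ[ℝ] Alt N 1 :=
  ofSubsingletonLIE (0 : Fin 1)

/-- the form `w ↦ w1 (c w) (K w)` -/
theorem ext_w1 (c : (Fin N → ℂ) → (Fin N → ℂ) →L[ℝ] ℝ) (K : (Fin N → ℂ) → Alt N k)
    (z : Fin N → ℂ) (hc : DifferentiableAt ℝ c z) (hK : DifferentiableAt ℝ K z) :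
    extDeriv (fun w => w1 (c w) (K w)) z =
      ∑ i, w1 (dx N i) (w1 (fderiv ℝ c z (bas N i)) (K z)) - w1 (c z) (extDeriv K z) := by
  have hb := (H18.w1_bilin (N := N) (k := k)).hasFDerivAt (c z, K z)
  have h1 := hb.comp z (hc.hasFDerivAt.prodMk hK.hasFDerivAt)
  have h2 : fderiv ℝ (fun w => w1 (c w) (K w)) z = _ := h1.fderiv
  unfold extDeriv
  rw [aU_eq, h2, aU_eq]
  have h3 : ∀ i, w1 (dx N i) (((H18.w1_bilin (N := N) (k := k)).deriv (c z, K z)).comp
      ((fderiv ℝ c z).prod (fderiv ℝ K z)) (bas N i)) =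
      w1 (dx N i) (w1 (fderiv ℝ c z (bas N i)) (K z)) -
        w1 (c z) (w1 (dx N i) (fderiv ℝ K z (bas N i))) := by
    intro i
    have h4 : ((H18.w1_bilin (N := N) (k := k)).deriv (c z, K z)).comp
      ((fderiv ℝ c z).prod (fderiv ℝ K z)) (bas N i) =
      w1 (c z) (fderiv ℝ K z (bas N i)) + w1 (fderiv ℝ c z (bas N i)) (K z) := rfl
    rw [h4, H18.w1_add_right, H18.w1_anti (dx N i) (c z)]
    abel
  rw [Finset.sum_congr rfl fun i _ => h3 i, Finset.sum_sub_distrib]
  congr 1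
  have h5 : ∀ s : Finset (Fin (Module.finrank ℝ (Fin N → ℂ))),
      w1 (c z) (∑ i ∈ s, w1 (dx N i) (fderiv ℝ K z (bas N i))) =
      ∑ i ∈ s, w1 (c z) (w1 (dx N i) (fderiv ℝ K z (bas N i))) := by
    intro s
    classical
    induction s using Finset.induction_on with
    | empty =>
      rw [Finset.sum_empty, Finset.sum_empty]
      have := H18.w1_smul_right (0 : ℝ) (c z) (0 : Alt N (k + 1))
      rwa [smul_zero, zero_smul] at this
    | insert a s ha ih => rw [Finset.sum_insert ha, Finset.sum_insert ha, H18.w1_add_right, ih]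
  exact (h5 _).symm

/-- the second derivative is symmetric -/
theorem sec_zero (h : (Fin N → ℂ) → ℝ) (a : Alt N k) (z : Fin N → ℂ) (hh : ContDiffAt ℝ 2 h z) :
    ∑ i, w1 (dx N i) (w1 (fderiv ℝ (fderiv ℝ h) z (bas N i)) a) = 0 := by
  have hs : IsSymmSndFDerivAt ℝ h z := hh.isSymmSndFDerivAt (by simp)
  set B : (Fin N → ℂ) →L[ℝ] (Fin N → ℂ) →L[ℝ] Alt N k :=
    (ContinuousLinearMap.smulRightL ℝ (Fin N → ℂ) (Alt N k)).flip a ∘L fderiv ℝ (fderiv ℝ h) z
    with hB
  have h1 := alternatizeUncurryFin_alternatizeUncurryFinCLM_comp_of_symmetric (f := B) (by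
      intro x y
      show (fderiv ℝ (fderiv ℝ h) z x) y • a = (fderiv ℝ (fderiv ℝ h) z y) x • a
      rw [hs x y])
  rw [aU_eq] at h1
  exact h1

theorem wedge_one (hk : Even k) (K : Alt N k) (L : Alt N 1) :
    wedge K L = w1 ((hatL N).symm L) K := by
  apply ContinuousAlternatingMap.ext
  intro v
  set c := (hatL N).symm L with hc
  have hcv : ∀ u : Fin 1 → Fin N → ℂ, L u = c (u 0) := by
    intro u
    have : L = hatL N c := by
      rw [hc, LinearIsometryEquiv.apply_symm_apply]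
    rw [this]
    rfl
  rw [H50.wedge_apply]
  have h1 := H50.w1_sum c K v
  have h2 : ∑ σ : Equiv.Perm (Fin (k + 1)), H50.sg σ * (K (fun i => v (σ (Fin.castAdd 1 i))) *
      L (fun j => v (σ (Fin.natAdd k j)))) =
      ∑ σ : Equiv.Perm (Fin (k + 1)), H50.sg σ * (c (v (σ 0)) * K (fun j => v (σ j.succ))) := by
    rw [← Equiv.sum_comp (Equiv.mulRight (finRotate (k + 1)))
        (fun σ : Equiv.Perm (Fin (k + 1)) => H50.sg σ * (K (fun i => v (σ (Fin.castAdd 1 i))) *
      L (fun j => v (σ (Fin.natAdd k j)))))]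
    refine Finset.sum_congr rfl fun σ _ => ?_
    have hs : H50.sg (finRotate (k + 1)) = 1 := by
      unfold H50.sg
      rw [sign_finRotate]
      simp [hk.neg_one_pow]
    have e1 : ∀ i : Fin k, finRotate (k + 1) (Fin.castAdd 1 i) = i.succ := by
      intro i
      apply Fin.ext
      rw [finRotate_apply, Fin.val_add]
      simp only [Fin.val_castAdd, Fin.val_succ]
      have h1 : k ≠ 0 := by
        have := i.pos
        omega
      obtain ⟨m, rfl⟩ : ∃ m, k = m + 1 := ⟨k - 1, by omega⟩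
      have h2 : ((1 : Fin (m + 1 + 1)) : ℕ) = 1 := rfl
      rw [h2, Nat.mod_eq_of_lt (by omega)]
    have e2 : ∀ j : Fin 1, finRotate (k + 1) (Fin.natAdd k j) = 0 := by
      intro j
      have hj : j = 0 := Subsingleton.elim _ _
      rw [hj]
      have : Fin.natAdd k (0 : Fin 1) = Fin.last k := by
        apply Fin.ext
        simp
      rw [this, finRotate_last]
    simp only [Equiv.coe_mulRight, H50.sg_mul, Equiv.Perm.mul_apply, hs, e1, e2, hcv]
    ring
  rw [h2, h1]
  have hk' : (k.factorial : ℝ) ≠ 0 := by positivity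
  rw [Nat.factorial_one, mul_one]
  field_simp

theorem w1_cst (L : Alt N 1) :
    w1 ((hatL N).symm L) (cst N 1) = L := by
  apply ContinuousAlternatingMap.ext
  intro v
  set c := (hatL N).symm L with hc
  have : L = hatL N c := by
      rw [hc, LinearIsometryEquiv.apply_symm_apply]
  rw [this, H18.w1_apply, Fin.sum_univ_one]
  have h1 : ∀ w : Fin 0 → Fin N → ℂ, cst N 1 w = 1 := fun w => rfl
  rw [h1]
  simp
  rfl

/-- module LBZ -/
theorem lbz (hWDG : WdgStmt) (_hWON : WonStmt) (hLNK : LnkStmt) : LbzStmt := by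
  refine ⟨?_, ?_, ?_⟩
  · intro N k h K z hh hK
    unfold extDeriv
    rw [fderiv_fun_smul hh hK, alternatizeUncurryFin_add, alternatizeUncurryFin_smul]
    exact add_comm _ _
  · intro N k h K z hh hK
    have hd : DifferentiableAt ℝ (fderiv ℝ h) z :=
      (hh.fderiv_right (m := 1) (by norm_num)).differentiableAt (by norm_num)
    rw [ext_w1 (fderiv ℝ h) K z hd hK, sec_zero h (K z) z hh, zero_sub]
  · intro N k hk K θ z hK hθ hc
    set Φ := (hatL N).symm with hΦ
    have h1 : (fun w => wedge (K w) (θ w)) = fun w => w1 (Φ (θ w)) (K w) := by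
      funext w
      exact wedge_one hk (K w) (θ w)
    have hd : HasFDerivAt (fun w => Φ (θ w))
        ((Φ : Alt N 1 →L[ℝ] ((Fin N → ℂ) →L[ℝ] ℝ)).comp (fderiv ℝ θ z)) z :=
      (Φ : Alt N 1 →L[ℝ] ((Fin N → ℂ) →L[ℝ] ℝ)).hasFDerivAt.comp z hθ.hasFDerivAt
    rw [h1, ext_w1 (fun w => Φ (θ w)) K z hd.differentiableAt hK, hc, hd.fderiv]
    have h0 : w1 (Φ (θ z)) (0 : Alt N (k + 1)) = 0 := by
      have := H18.w1_smul_right (0 : ℝ) (Φ (θ z)) (0 : Alt N (k + 1))
      rwa [smul_zero, zero_smul] at this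
    rw [h0, sub_zero]
    have h2 : extDeriv θ z = ∑ i, cc2 (dx N i) (Φ (fderiv ℝ θ z (bas N i))) := by
      unfold extDeriv
      rw [aU_eq]
      refine Finset.sum_congr rfl fun i _ => ?_
      unfold cc2
      rw [w1_cst]
    have h3 : ∀ s : Finset (Fin (Module.finrank ℝ (Fin N → ℂ))),
        wedge (K z) (∑ i ∈ s, cc2 (dx N i) (Φ (fderiv ℝ θ z (bas N i)))) =
        ∑ i ∈ s, wedge (K z) (cc2 (dx N i) (Φ (fderiv ℝ θ z (bas N i)))) := by
      intro s
      classical
      induction s using Finset.induction_on with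
      | empty =>
        rw [Finset.sum_empty, Finset.sum_empty]
        have := ((hWDG N k 2).2.2.1 (0 : ℝ) (K z) (0 : Alt N 2)).2
        rwa [smul_zero, zero_smul] at this
      | insert a s ha ih =>
        rw [Finset.sum_insert ha, Finset.sum_insert ha, (hWDG N k 2).2.1, ih]
    rw [h2, h3]
    refine Finset.sum_congr rfl fun i _ => ?_
    rw [hLNK.1 N k hk]
    rfl

end Pool.Agent.SIU.H19
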